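import Pool.Agent.Helper51.BW.Base

/-!
# Swarm BW, part LOW2: lower bound of the expectations, second type
-/

set_option autoImplicit false

open MeasureTheory Filter Topology

namespace Pool.Agent.Helper6.BW.LOW2

open Pool.Agent.Helper51.BW

/-! ### elementary facts -/

theorem fn_true {d : ℕ} (a : Fin d → ℝ) (j : Fin d) : fn a (j, true) = a j := by
  unfold fn ip dir
  rw [Finset.sum_eq_single j]
  · simp
  · intro b _ hb; simp [Pi.single_apply, hb]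
  · simp

theorem fn_false {d : ℕ} (a : Fin d → ℝ) (j : Fin d) : fn a (j, false) = - a j := by
  unfold fn ip dir
  rw [Finset.sum_eq_single j]
  · simp
  · intro b _ hb; simp [Pi.single_apply, hb]
  · simp

theorem sum_fn {d : ℕ} (p : D d → ℝ) (a : Fin d → ℝ) :
    ∑ e, p e * fn a e = ∑ j, a j * drift p j := by
  rw [Fintype.sum_prod_type]
  refine Finset.sum_congr rfl fun j _ => ?_
  rw [Fintype.sum_bool, fn_true, fn_false]
  unfold drift
  ring

theorem ip_sub {d : ℕ} (a : Fin d → ℝ) (z z' : V d) : ip a (z - z') = ip a z - ip a z' := by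
  unfold ip
  rw [← Finset.sum_sub_distrib]
  refine Finset.sum_congr rfl fun j _ => ?_
  simp; ring

/-- a common lower bound of the weights -/
theorem exists_pm {d : ℕ} (p : ℕ → D d → ℝ) (hp : ∀ i e, 0 < p i e) (i : ℕ) :
    ∃ pm > 0, ∀ m ≤ i, ∀ e, pm ≤ p m e := by
  classical
  induction i with
  | zero =>
    rcases isEmpty_or_nonempty (D d) with h | h
    · exact ⟨1, one_pos, fun m _ e => h.elim e⟩
    · obtain ⟨e0, he0⟩ := Finite.exists_min (p 0)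
      refine ⟨p 0 e0, hp 0 e0, fun m hm e => ?_⟩
      obtain rfl : m = 0 := by omega
      exact he0 e
  | succ i ih =>
    obtain ⟨pm, h0, h1⟩ := ih
    rcases isEmpty_or_nonempty (D d) with h | h
    · exact ⟨1, one_pos, fun m _ e => h.elim e⟩
    · obtain ⟨e0, he0⟩ := Finite.exists_min (p (i + 1))
      refine ⟨min pm (p (i + 1) e0), lt_min h0 (hp _ e0), fun m hm e => ?_⟩
      rcases Nat.lt_or_ge m (i + 1) with h2 | h2
      · exact (min_le_left _ _).trans (h1 m (by omega) e)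
      · obtain rfl : m = i + 1 := by omega
        exact (min_le_right _ _).trans (he0 e)

/-! ### measurability -/

theorem meas_X {d : ℕ} {Ω : Type} (X : ℕ → ℕ → Ω → V d) (s : ℕ) :
    Measurable[sig0 X] (X 0 s) := by
  have h : MeasurableSpace.comap (X 0 s) inferInstance ≤ sig0 X :=
    le_iSup (fun s => MeasurableSpace.comap (X 0 s) inferInstance) s
  exact Measurable.mono (comap_measurable (X 0 s)) h le_rfl

theorem meas_fin {d : ℕ} {Ω : Type} (X : ℕ → ℕ → Ω → V d) (T : ℕ) (P : (ℕ → V d) → Prop)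
    (hP : ∀ S S' : ℕ → V d, (∀ t ≤ T, S t = S' t) → P S → P S') :
    MeasurableSet[sig0 X] {ω | P (fun n => X 0 n ω)} := by
  have h1 : Measurable[sig0 X] (fun ω => fun t : Fin (T + 1) => X 0 t ω) := by
    letI : MeasurableSpace Ω := sig0 X
    exact measurable_pi_lambda _ (fun t => meas_X X t)
  have h2 : {ω | P (fun n => X 0 n ω)} = (fun ω => fun t : Fin (T + 1) => X 0 t ω) ⁻¹'
      {v | P (fun n => v ⟨min n T, by omega⟩)} := by
    ext ω
    simp only [Set.mem_setOf_eq, Set.mem_preimage]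
    constructor
    · intro h
      exact hP _ _ (fun t ht => by simp [min_eq_left ht]) h
    · intro h
      exact hP _ _ (fun t ht => by simp [min_eq_left ht]) h
  rw [h2]
  exact h1 (Set.to_countable _).measurableSet

theorem Q2_succ {d : ℕ} (u : Fin d → ℝ) (r j k t0 T : ℕ) (S : ℕ → V d) :
    Q2 u r j k t0 (T + 1) S → Q2 u r j k t0 T S := by
  rintro ⟨h1, h2, h3, h4, h5⟩
  exact ⟨h1, h2, fun s t hs ht hT => h3 s t hs ht (by omega),
    fun s t hs ht hT => h4 s t hs ht (by omega), h5⟩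

theorem Q2_congr {d : ℕ} (u : Fin d → ℝ) (r j k t0 T : ℕ) (hT : j + k ≤ T) (S S' : ℕ → V d)
    (h : ∀ t ≤ T, S t = S' t) : Q2 u r j k t0 T S → Q2 u r j k t0 T S' := by
  rintro ⟨h1, h2, h3, h4, h5, h6, h7⟩
  refine ⟨h1, h2, ?_, ?_, ?_, ?_, ?_⟩
  · intro s t hs ht hT'
    rw [← h s (by omega), ← h t hT']
    exact h3 s t hs ht hT'
  · intro s t hs ht hT'
    rw [← h s (by omega), ← h t hT']
    exact h4 s t hs ht hT'
  · intro s hs
    rw [← h s (by omega), ← h j (by omega)]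
    exact h5 s hs
  · intro t ht1 ht2
    rw [← h t (by omega), ← h (j + k) hT]
    exact h6 t ht1 ht2
  · intro t ht1 ht2 i
    rw [← h t (by omega), ← h (j + k) hT]
    exact h7 t ht1 ht2 i

/-- the good event -/
def Th {d : ℕ} {Ω : Type} (X : ℕ → ℕ → Ω → V d) (u : Fin d → ℝ) (r j k t0 : ℕ) : Set Ω :=
  {ω | ∀ T, j + k ≤ T → Q2 u r j k t0 T (fun n => X 0 n ω)}

theorem meas_Th {d : ℕ} {Ω : Type} (X : ℕ → ℕ → Ω → V d) (u : Fin d → ℝ) (r j k t0 : ℕ) :
    MeasurableSet[sig0 X] (Th X u r j k t0) := by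
  have : Th X u r j k t0 = ⋂ T : ℕ, ⋂ (_ : j + k ≤ T), {ω | Q2 u r j k t0 T (fun n => X 0 n ω)} := by
    ext ω; simp [Th]
  rw [this]
  refine MeasurableSet.iInter fun T => MeasurableSet.iInter fun hT => ?_
  exact meas_fin X T _ (fun S S' h => Q2_congr u r j k t0 T hT S S' h)

theorem isCut_of {d : ℕ} {S : ℕ → V d} {b T0 : ℕ} (h : ∀ T, T0 ≤ T → CutT S b T) : IsCut S b := by
  intro s t hs ht
  exact h (max t T0) (le_max_right _ _) s t hs ht (le_max_left _ _)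

/-- the potentials have a common gap -/
theorem gap_all (hGAP : S_GAP) {d : ℕ} (u : Fin d → ℝ) (h : ℕ → Fin d → ℝ) (i : ℕ) (C : ℝ)
    (hu : ∑ j, u j ^ 2 = 1) (hi : 1 ≤ i) (hh : ∀ m < i, 0 < ∑ j, h m j * u j) (hC : 0 < C)
    (pm ε : ℝ) (hpm : 0 < pm) (hε : 0 < ε) : ∃ r0 : ℕ, ∀ r ≥ r0, ∃ Γ0 : ℝ,
    (∀ m < i, ∀ z z' : V d, ∀ (θ θ' : ℝ), (r : ℝ) ^ 15 / (2 * i) ≤ θ - θ' → θ ≤ ip u z →
      ip u z' < θ' → (∀ l, |ip (perp u l) z| ≤ 2 * (r : ℝ) ^ 12) →
      (∀ l, |ip (perp u l) z'| ≤ 2 * (r : ℝ) ^ 12) → ip (h m) z' + Γ0 ≤ ip (h m) z) ∧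
    ∀ a b : ℕ, a ≤ b → (b : ℝ) - a ≤ C * (r : ℝ) ^ 20 →
      ((b : ℝ) - a + 1) ^ 2 * Real.sqrt (Real.exp (-Γ0) / pm) ≤ ε := by
  classical
  have h1 : ∀ m : ℕ, ∃ r0 : ℕ, m < i → ∀ r ≥ r0, ∃ Γ0 : ℝ,
    (∀ z z' : V d, ∀ (θ θ' : ℝ), (r : ℝ) ^ 15 / (2 * i) ≤ θ - θ' → θ ≤ ip u z →
      ip u z' < θ' → (∀ l, |ip (perp u l) z| ≤ 2 * (r : ℝ) ^ 12) →
      (∀ l, |ip (perp u l) z'| ≤ 2 * (r : ℝ) ^ 12) → ip (h m) z' + Γ0 ≤ ip (h m) z) ∧
    ∀ Γ ≥ Γ0, ∀ a b : ℕ, a ≤ b → (b : ℝ) - a ≤ C * (r : ℝ) ^ 20 →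
      ((b : ℝ) - a + 1) ^ 2 * Real.sqrt (Real.exp (-Γ) / pm) ≤ ε := by
    intro m
    by_cases hm : m < i
    · obtain ⟨r0, hr0⟩ := hGAP d u (h m) i C hu hi (hh m hm) hC pm ε hpm hε
      exact ⟨r0, fun _ => hr0⟩
    · exact ⟨0, fun h => absurd h hm⟩
  choose rr hrr using h1
  refine ⟨(Finset.range i).sup rr, fun r hr => ?_⟩
  have h2 : ∀ m : Fin i, ∃ Γ0 : ℝ,
    (∀ z z' : V d, ∀ (θ θ' : ℝ), (r : ℝ) ^ 15 / (2 * i) ≤ θ - θ' → θ ≤ ip u z →
      ip u z' < θ' → (∀ l, |ip (perp u l) z| ≤ 2 * (r : ℝ) ^ 12) →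
      (∀ l, |ip (perp u l) z'| ≤ 2 * (r : ℝ) ^ 12) → ip (h m) z' + Γ0 ≤ ip (h m) z) ∧
    ∀ Γ ≥ Γ0, ∀ a b : ℕ, a ≤ b → (b : ℝ) - a ≤ C * (r : ℝ) ^ 20 →
      ((b : ℝ) - a + 1) ^ 2 * Real.sqrt (Real.exp (-Γ) / pm) ≤ ε := fun m =>
    hrr m m.2 r ((Finset.le_sup (Finset.mem_range.mpr m.2)).trans hr)
  choose Γ hΓ using h2
  haveI : Nonempty (Fin i) := ⟨⟨0, hi⟩⟩
  obtain ⟨m0, hm0⟩ := Finite.exists_min Γ
  refine ⟨Γ m0, fun m hm z z' θ θ' a1 a2 a3 a4 a5 => ?_, (hΓ m0).2 _ le_rfl⟩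
  have := (hΓ ⟨m, hm⟩).1 z z' θ θ' a1 a2 a3 a4 a5
  have h3 := hm0 ⟨m, hm⟩
  simp only at this h3
  linarith

theorem main (hTYPE2 : S_TYPE2) (hHOR : S_HOR) (hQL2 : S_QL2) (hLOWR : S_LOWR) (hGAP : S_GAP) :
    S_LOW2 := by
  classical
  intro d Ω _ μ _ p X hp hs hX i hi hReg hpos hcrit hex M
  obtain ⟨n, u, g, gB, hg, hgB, hu, hn, hnu, hd1, hd2⟩ := hex
  obtain ⟨c, hc, c1, hc1, DD, hDD, C, hC, Mc, hMc, r0, t0, ht0⟩ := hTYPE2 d (p 0) (lhat (p i)) n u g gB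
    (hp 0) (hs 0) hcrit hg hgB hu hn hnu hd1 hd2
  obtain ⟨pm, hpm, hpm'⟩ := exists_pm p hp i
  have hiR : (0 : ℝ) < i := by exact_mod_cast hi
  obtain ⟨r1, hr1⟩ := gap_all hGAP u (fun m => lhat (p (m + 1))) i C hu hi (fun m hm => by
    have h1 := hpos (m + 1) (by omega) (by omega)
    rw [sum_fn] at h1
    simp only [hd1] at h1
    have h2 : ∑ j, lhat (p (m + 1)) j * (g * u j) = g * ∑ j, lhat (p (m + 1)) j * u j := by
      rw [Finset.mul_sum]
      exact Finset.sum_congr rfl fun j _ => by ring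
    rw [h2] at h1
    exact (mul_pos_iff_of_pos_left hg).mp h1) hC pm (1 / (4 * i)) hpm (by positivity)
  -- the radii
  obtain ⟨A, hA⟩ := exists_nat_gt (DD / c1)
  set rs : ℕ := max (max r0 r1) 1 with hrs
  set A' : ℕ := A + 1 with hA'
  set R : ℕ → ℕ := fun l => rs * A' ^ l with hR
  have hDD0 : 0 < DD := hc1.trans hDD
  have hAc : DD < c1 * (A' : ℝ) ^ 20 := by
    have h1 : DD < c1 * A := by
      rw [div_lt_iff₀ hc1] at hA; linarith
    have h2 : (A : ℝ) ≤ (A' : ℝ) ^ 20 := by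
      have h3 : (1 : ℝ) ≤ A' := by rw [hA']; push_cast; linarith [Nat.cast_nonneg (α := ℝ) A]
      calc (A : ℝ) ≤ A' := by rw [hA']; push_cast; linarith
        _ ≤ (A' : ℝ) ^ 20 := le_self_pow₀ h3 (by norm_num)
    nlinarith
  have hRge : ∀ l, rs ≤ R l := fun l => Nat.le_mul_of_pos_right _ (by positivity)
  have hR1 : ∀ l, 1 ≤ R l := fun l => (le_max_right _ _).trans (hRge l)
  have hRr0 : ∀ l, r0 ≤ R l := fun l => ((le_max_left _ _).trans (le_max_left _ _)).trans (hRge l)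
  have hRr1 : ∀ l, r1 ≤ R l := fun l => ((le_max_right _ _).trans (le_max_left _ _)).trans (hRge l)
  have hRmono : Monotone R := by
    intro a b hab
    exact Nat.mul_le_mul_left _ (Nat.pow_le_pow_right (by omega) hab)
  have hRstep : ∀ l, DD * (R l : ℝ) ^ 20 < c1 * (R (l + 1) : ℝ) ^ 20 := by
    intro l
    have h1 : (R (l + 1) : ℝ) = R l * A' := by
      simp only [hR]; push_cast; ring
    have h2 : (0 : ℝ) < (R l : ℝ) ^ 20 := by
      have : (1 : ℝ) ≤ R l := by exact_mod_cast hR1 l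
      positivity
    rw [h1, mul_pow]
    calc DD * (R l : ℝ) ^ 20 < (c1 * (A' : ℝ) ^ 20) * (R l : ℝ) ^ 20 := by
          exact mul_lt_mul_of_pos_right hAc h2
      _ = _ := by ring
  set win : ℕ → Finset ℕ := fun l => Finset.Icc ⌈c1 * (R l : ℝ) ^ 20⌉₊ ⌊DD * (R l : ℝ) ^ 20⌋₊
    with hwin
  have hmemwin : ∀ l k, k ∈ win l → c1 * (R l : ℝ) ^ 20 ≤ k ∧ (k : ℝ) ≤ DD * (R l : ℝ) ^ 20 := by
    intro l k hk
    rw [hwin] at hk
    simp only [Finset.mem_Icc] at hk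
    exact ⟨Nat.ceil_le.mp hk.1, (Nat.le_floor_iff (by positivity)).mp hk.2⟩
  have hdis : ∀ l l', l < l' → ∀ k, k ∈ win l → k ∉ win l' := by
    intro l l' hll k hk hk'
    have h1 := (hmemwin l k hk).2
    have h2 := (hmemwin l' k hk').1
    have h3 := hRstep l
    have h4 : (R (l + 1) : ℝ) ≤ R l' := by exact_mod_cast hRmono hll
    have h5 : c1 * (R (l + 1) : ℝ) ^ 20 ≤ c1 * (R l' : ℝ) ^ 20 := by gcongr
    linarith
  have hidx : ∀ k : ℕ, ∃ l : ℕ, ∀ l', k ∈ win l' → l = l' := by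
    intro k
    by_cases hk : ∃ l, k ∈ win l
    · obtain ⟨l, hl⟩ := hk
      refine ⟨l, fun l' hl' => ?_⟩
      rcases lt_trichotomy l l' with h | h | h
      · exact absurd hl' (hdis l l' h k hl)
      · exact h
      · exact absurd hl (hdis l' l h k hl')
    · exact ⟨0, fun l' hl' => absurd ⟨l', hl'⟩ hk⟩
  choose idx hidx' using hidx
  -- the number of windows
  obtain ⟨nw, hnw⟩ := exists_nat_gt (M / (pm / 8 * c))
  set W : Finset ℕ := (Finset.range nw).biUnion win with hW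
  obtain ⟨K, hK⟩ := hLOWR d Ω μ p X hp hs hX i hReg pm W hpm (fun e => hpm' i le_rfl e)
  obtain ⟨j0, hj0⟩ : ∃ j0 : ℕ, ∀ l < nw, Mc * (R l : ℝ) ^ 20 ≤ j0 := by
    obtain ⟨j0, hj0⟩ := exists_nat_gt (Mc * (R nw : ℝ) ^ 20)
    refine ⟨j0, fun l hl => ?_⟩
    have h1 : (R l : ℝ) ≤ R nw := by exact_mod_cast hRmono hl.le
    have h2 : Mc * (R l : ℝ) ^ 20 ≤ Mc * (R nw : ℝ) ^ 20 := by gcongr
    linarith
  refine ⟨K, j0, fun j hj => ?_⟩
  have hWk : ∀ k ∈ W, ∃ l < nw, k ∈ win l ∧ idx k = l := by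
    intro k hk
    rw [hW, Finset.mem_biUnion] at hk
    obtain ⟨l, hl, hkl⟩ := hk
    exact ⟨l, Finset.mem_range.mp hl, hkl, hidx' k l hkl⟩
  set Θ : ℕ → Set Ω := fun k => Th X u (R (idx k)) j k (t0 (R (idx k)) k) with hΘ
  have hk1 : ∀ k ∈ W, 1 ≤ k := by
    intro k hk
    obtain ⟨l, hl, hkl, hid⟩ := hWk k hk
    have h1 := (hmemwin l k hkl).1
    have h2 : (0 : ℝ) < (R l : ℝ) ^ 20 := by
      have : (1 : ℝ) ≤ R l := by exact_mod_cast hR1 l
      positivity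
    have h3 : (0 : ℝ) < k := lt_of_lt_of_le (by positivity) h1
    exact_mod_cast h3
  have main1 := hK K le_rfl j (j + W.sup id + 1) Θ (fun k _ => meas_Th _ _ _ _ _ _)
    (fun k hk => ⟨hk1 k hk, by have := Finset.le_sup (f := id) hk; simp only [id] at this; omega⟩)
    (fun k hk ω hω s hs' => by
      rw [hΘ] at hω
      exact (hω (j + k) le_rfl).2.2.2.2.1 s hs') ?_
  · -- the lower bound
    refine le_trans ?_ main1
    have h1 : ∀ l < nw, c ≤ ∑ k ∈ win l, ∫ ω in Θ k,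
        Real.exp (ip (lhat (p i)) (X 0 j ω - X 0 (j + k) ω)) ∂μ := by
      intro l hl
      have h2 : ∀ k ∈ win l, Tendsto (fun T => Ex (p 0) T (fun L =>
          ind (Q2 u (R l) j k (t0 (R l) k) T (pos L)) *
            Real.exp (ip (lhat (p i)) (pos L j - pos L (j + k))))) atTop
          (𝓝 (∫ ω in Θ k, Real.exp (ip (lhat (p i)) (X 0 j ω - X 0 (j + k) ω)) ∂μ)) := by
        intro k hk
        have hid : idx k = l := hidx' k l hk
        have h3 := hHOR d Ω μ p X hp hs hX (fun T S => Q2 u (R l) j k (t0 (R l) k) T S) (j + k)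
          (fun S => Real.exp (ip (lhat (p i)) (S j - S (j + k))))
          (fun T S => Q2_succ _ _ _ _ _ _ _)
          (fun T hT S S' h => Q2_congr _ _ _ _ _ _ hT _ _ h)
          (fun S S' h => by rw [h j (by omega), h (j + k) le_rfl])
          (fun S => (Real.exp_pos _).le)
        rw [hΘ]
        simp only [hid]
        exact h3
      have h4 : Tendsto (fun T => ∑ k ∈ win l, Ex (p 0) T (fun L =>
          ind (Q2 u (R l) j k (t0 (R l) k) T (pos L)) *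
            Real.exp (ip (lhat (p i)) (pos L j - pos L (j + k))))) atTop
          (𝓝 (∑ k ∈ win l, ∫ ω in Θ k,
            Real.exp (ip (lhat (p i)) (X 0 j ω - X 0 (j + k) ω)) ∂μ)) :=
        tendsto_finset_sum _ h2
      refine ge_of_tendsto h4 ?_
      obtain ⟨T1, hT1⟩ := exists_nat_gt ((j : ℝ) + Mc * (R l : ℝ) ^ 20)
      filter_upwards [eventually_ge_atTop T1] with T hT
      refine (ht0 (R l) (hRr0 l)).2 j T ?_ ?_
      · exact (hj0 l hl).trans (by exact_mod_cast hj)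
      · have : (T1 : ℝ) ≤ T := by exact_mod_cast hT
        linarith
    have h5 : ∑ k ∈ W, ∫ ω in Θ k, Real.exp (ip (lhat (p i)) (X 0 j ω - X 0 (j + k) ω)) ∂μ =
        ∑ l ∈ Finset.range nw, ∑ k ∈ win l, ∫ ω in Θ k,
          Real.exp (ip (lhat (p i)) (X 0 j ω - X 0 (j + k) ω)) ∂μ := by
      rw [hW]
      refine Finset.sum_biUnion ?_
      intro l _ l' _ hll
      rw [Function.onFun, Finset.disjoint_left]
      intro k hk hk'
      rcases lt_or_gt_of_ne hll with h | h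
      · exact hdis l l' h k hk hk'
      · exact hdis l' l h k hk' hk
    rw [h5]
    have h6 : (nw : ℝ) * c ≤ ∑ l ∈ Finset.range nw, ∑ k ∈ win l, ∫ ω in Θ k,
          Real.exp (ip (lhat (p i)) (X 0 j ω - X 0 (j + k) ω)) ∂μ := by
      calc (nw : ℝ) * c = ∑ _l ∈ Finset.range nw, c := by simp
        _ ≤ _ := Finset.sum_le_sum fun l hl => h1 l (Finset.mem_range.mp hl)
    have h7 : M < nw * (pm / 8 * c) := by
      rwa [div_lt_iff₀ (by positivity)] at hnw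
    calc M ≤ pm / 8 * (nw * c) := by nlinarith
      _ ≤ _ := by gcongr
  · -- the number of visits
    intro K' s E l hK'W hK'ne hE hEω hl hl2
    rcases Set.eq_empty_or_nonempty E with hemp | ⟨ω0, hω0⟩
    · rw [hemp]; simp
    obtain ⟨k1, hk1K⟩ := hK'ne
    obtain ⟨lw, hlw, hkl, hid⟩ := hWk k1 (hK'W hk1K)
    set r : ℕ := R lw with hr
    have hsup : ∀ k ∈ W, k ≤ W.sup id := fun k hk => by
      have := Finset.le_sup (f := id) hk; simpa using this
    have hQ : ∀ ω ∈ E, ∀ T, j + k1 ≤ T →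
        Q2 u r j k1 (t0 r k1) T (fun n => X 0 n ω) := by
      intro ω hω T hT
      have := (hEω ω hω).2 k1 hk1K
      rw [hΘ] at this
      simp only [hid] at this
      exact this T hT
    have hQ0 := hQ ω0 hω0 (j + k1) le_rfl
    have hs0 := (hEω ω0 hω0).1
    have hk1W := hsup k1 (hK'W hk1K)
    obtain ⟨q1, q2, q3, q4, q5, q6, q7⟩ := hQ0
    simp only at q3 q4 q5 q6 q7
    have q6' : ∀ t, j - t0 r k1 ≤ t → t ≤ j → (r : ℝ) ^ 15 ≤ ip u (s t - s (j + k1)) := by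
      intro t h1 h2
      rw [← hs0 t (by omega), ← hs0 (j + k1) (by omega)]
      exact q6 t h1 h2
    have q7' : ∀ t, j - t0 r k1 ≤ t → t ≤ j + k1 → ∀ i,
        |ip (perp u i) (s t - s (j + k1))| ≤ 2 * (r : ℝ) ^ 12 := by
      intro t h1 h2
      rw [← hs0 t (by omega), ← hs0 (j + k1) (by omega)]
      exact q7 t h1 h2
    obtain ⟨Γ, hΓ1, hΓ2⟩ := hr1 r (hRr1 lw)
    have hr15 : (0 : ℝ) < (r : ℝ) ^ 15 := by
      have : (1 : ℝ) ≤ r := by exact_mod_cast hR1 lw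
      positivity
    have hθstep : ∀ m : ℕ, (r : ℝ) ^ 15 * (1 - (m : ℝ) / (2 * i)) -
        (r : ℝ) ^ 15 * (1 - ((m + 1 : ℕ) : ℝ) / (2 * i)) = (r : ℝ) ^ 15 / (2 * i) := by
      intro m
      push_cast
      field_simp
      ring
    refine hQL2 d Ω μ p X hp hs hX i hi hReg s (j - t0 r k1) j k1 (j + W.sup id + 1) u
      (fun m => (r : ℝ) ^ 15 * (1 - (m : ℝ) / (2 * i))) Γ (1 / (4 * i)) pm K' E l (by omega) hpm
      hpm' hE hk1K (fun k hk => ⟨hk1 k (hK'W hk), by have := hsup k (hK'W hk); omega⟩) ?_ ?_ ?_ ?_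
      ?_ ?_ ?_ hl hl2
    · intro ω hω
      refine ⟨(hEω ω hω).1, isCut_of (T0 := j + k1) fun T hT => (hQ ω hω T hT).2.2.1, ?_⟩
      intro k hk
      have h1 := (hEω ω hω).2 k hk
      rw [hΘ] at h1
      exact isCut_of (T0 := j + k) fun T hT => (h1 T hT).2.2.2.1
    · intro t h1 h2
      simp only [Nat.cast_zero, zero_div, sub_zero, mul_one]
      exact q6' t h1 h2
    · intro m hm
      have h1 : (m : ℝ) ≤ i := by exact_mod_cast hm
      have h2 : (m : ℝ) / (2 * i) ≤ 1 / 2 := by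
        rw [div_le_div_iff₀ (by positivity) (by norm_num)]; linarith
      have : (0 : ℝ) < 1 - (m : ℝ) / (2 * i) := by linarith
      positivity
    · intro m hm
      have h1 := hθstep m
      have h2 : (0 : ℝ) ≤ (r : ℝ) ^ 15 / (2 * i) := by positivity
      linarith
    · intro m hm t t' h1 h2 h3 h4 h5 h6
      have h7 := hΓ1 m hm (s t - s (j + k1)) (s t' - s (j + k1)) _ _ (hθstep m).ge h5 h6
        (q7' t h1 h2) (q7' t' h3 h4)
      rw [ip_sub, ip_sub] at h7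
      linarith
    · refine hΓ2 (j - t0 r k1) (j + k1) (by omega) ?_
      have h1 := (ht0 r (hRr0 lw)).1 k1 (hmemwin lw k1 hkl).1 (hmemwin lw k1 hkl).2
      have h2 : ((j - t0 r k1 : ℕ) : ℝ) = (j : ℝ) - t0 r k1 := by
        rw [Nat.cast_sub q2]
      rw [h2]
      push_cast
      linarith
    · rw [mul_one_div, div_le_div_iff₀ (by positivity) (by norm_num)]
      linarith

end Pool.Agent.Helper6.BW.LOW2
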