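import Pool.Agent.Helper51.BW.Spec2
import Pool.Agent.Helper6.BW.LOW2

/-!
# Swarm BW, part PROP2: second type, input of the final argument
-/

set_option autoImplicit false

open MeasureTheory Filter Topology

namespace Pool.Agent.Helper6.BW.PROP2

open Pool.Agent.Helper51.BW
open Pool.Agent.Helper6.BW.LOW2 (sum_fn exists_pm meas_X meas_fin Q2_succ Q2_congr Th meas_Th
  isCut_of gap_all)

/-- the event, in terms of the path -/
def ThP {d : ℕ} (u : Fin d → ℝ) (rr tt : ℕ → ℕ) (j k : ℕ) (S : ℕ → V d) : Prop :=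
  ∀ T, j + k ≤ T → Q2 u (rr k) j k (tt k) T S

theorem thP_iff {d : ℕ} (u : Fin d → ℝ) (rr tt : ℕ → ℕ) (j k : ℕ) (S : ℕ → V d) :
    ThP u rr tt j k S ↔ 1 ≤ tt k ∧ tt k ≤ j ∧ IsCut S (j - tt k) ∧ IsCut S (j + k) ∧
      (∀ s < j, S s ≠ S j) ∧
      (∀ t, j - tt k ≤ t → t ≤ j → (rr k : ℝ) ^ 15 ≤ ip u (S t - S (j + k))) ∧
      (∀ t, j - tt k ≤ t → t ≤ j + k → ∀ i, |ip (perp u i) (S t - S (j + k))| ≤
        2 * (rr k : ℝ) ^ 12) := by
  constructor
  · intro h
    have h0 := h (j + k) le_rfl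
    exact ⟨h0.1, h0.2.1, isCut_of (T0 := j + k) fun T hT => (h T hT).2.2.1,
      isCut_of (T0 := j + k) fun T hT => (h T hT).2.2.2.1, h0.2.2.2.2.1, h0.2.2.2.2.2.1,
      h0.2.2.2.2.2.2⟩
  · rintro ⟨h1, h2, h3, h4, h5, h6, h7⟩ T _
    exact ⟨h1, h2, fun s t hs ht _ => h3 s t hs ht, fun s t hs ht _ => h4 s t hs ht, h5, h6, h7⟩

/-- the local event -/
def ThL {d : ℕ} (u : Fin d → ℝ) (rr tt : ℕ → ℕ) (L j k : ℕ) (S : ℕ → V d) : Prop :=
  1 ≤ tt k ∧ tt k ≤ j ∧
    (∀ s t, s ≤ j - tt k → j - tt k < t → j ≤ s + L → t ≤ j + L → S s ≠ S t) ∧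
    (∀ s t, s ≤ j + k → j + k < t → j ≤ s + L → t ≤ j + L → S s ≠ S t) ∧
    (∀ s < j, j ≤ s + L → S s ≠ S j) ∧
    (∀ t, j - tt k ≤ t → t ≤ j → (rr k : ℝ) ^ 15 ≤ ip u (S t - S (j + k))) ∧
    (∀ t, j - tt k ≤ t → t ≤ j + k → ∀ i, |ip (perp u i) (S t - S (j + k))| ≤
        2 * (rr k : ℝ) ^ 12)

theorem diff_eq {d : ℕ} {j L : ℕ} {S S' : ℕ → V d}
    (h : ∀ t, j ≤ t + L → t < j + L → S (t + 1) - S t = S' (t + 1) - S' t) (s : ℕ)
    (hs : j ≤ s + L) : ∀ m, s + m ≤ j + L → S (s + m) - S s = S' (s + m) - S' s := by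
  intro m
  induction m with
  | zero => intro _; simp
  | succ m ih =>
    intro hm
    have h1 := ih (by omega)
    have h2 := h (s + m) (by omega) (by omega)
    calc S (s + (m + 1)) - S s = (S (s + m + 1) - S (s + m)) + (S (s + m) - S s) := by
          rw [show s + (m + 1) = s + m + 1 from rfl]; abel
      _ = (S' (s + m + 1) - S' (s + m)) + (S' (s + m) - S' s) := by rw [h1, h2]
      _ = _ := by rw [show s + (m + 1) = s + m + 1 from rfl]; abel

theorem diff_eq' {d : ℕ} {j L : ℕ} {S S' : ℕ → V d}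
    (h : ∀ t, j ≤ t + L → t < j + L → S (t + 1) - S t = S' (t + 1) - S' t) (s t : ℕ)
    (hs : j ≤ s + L) (hst : s ≤ t) (ht : t ≤ j + L) : S s - S t = S' s - S' t := by
  obtain ⟨m, rfl⟩ := Nat.exists_eq_add_of_le hst
  have := diff_eq h s hs m ht
  calc S s - S (s + m) = -(S (s + m) - S s) := by abel
    _ = -(S' (s + m) - S' s) := by rw [this]
    _ = _ := by abel

theorem ThL_imp {d : ℕ} (u : Fin d → ℝ) (rr tt : ℕ → ℕ) (L j k : ℕ) (hk : k ≤ L)
    (ht : tt k ≤ L) {S S' : ℕ → V d}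
    (h : ∀ t, j ≤ t + L → t < j + L → S (t + 1) - S t = S' (t + 1) - S' t) :
    ThL u rr tt L j k S → ThL u rr tt L j k S' := by
  rintro ⟨h1, h2, h3, h4, h5, h6, h7⟩
  have hne : ∀ s t, j ≤ s + L → s ≤ t → t ≤ j + L → S s ≠ S t → S' s ≠ S' t := by
    intro s t a1 a2 a3 a4 a5
    apply a4
    have := diff_eq' h s t a1 a2 a3
    rw [a5, sub_self] at this
    exact sub_eq_zero.mp this
  refine ⟨h1, h2, ?_, ?_, ?_, ?_, ?_⟩
  · intro s t a1 a2 a3 a4
    exact hne s t a3 (by omega) a4 (h3 s t a1 a2 a3 a4)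
  · intro s t a1 a2 a3 a4
    exact hne s t a3 (by omega) a4 (h4 s t a1 a2 a3 a4)
  · intro s a1 a2
    exact hne s j a2 a1.le (by omega) (h5 s a1 a2)
  · intro t a1 a2
    rw [← diff_eq' h t (j + k) (by omega) (by omega) (by omega)]
    exact h6 t a1 a2
  · intro t a1 a2
    rw [← diff_eq' h t (j + k) (by omega) (by omega) (by omega)]
    exact h7 t a1 a2

theorem loc {d : ℕ} (u : Fin d → ℝ) (rr tt : ℕ → ℕ) (W : Finset ℕ) :
    Loc W (fun j k => ThP (d := d) u rr tt j k) := by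
  refine ⟨ThL u rr tt, W.sup id + W.sup tt, ?_, ?_, ?_⟩
  · intro L j k hk hA S S' h
    have hk1 : k ≤ W.sup id := by simpa using Finset.le_sup (f := id) hk
    have hk2 : tt k ≤ W.sup tt := Finset.le_sup (f := tt) hk
    exact propext ⟨ThL_imp u rr tt L j k (by omega) (by omega) h,
      ThL_imp u rr tt L j k (by omega) (by omega) (fun t a1 a2 => (h t a1 a2).symm)⟩
  · intro L j k S hk hA h
    rw [thP_iff] at h
    obtain ⟨h1, h2, h3, h4, h5, h6, h7⟩ := h
    exact ⟨h1, h2, fun s t a1 a2 _ _ => h3 s t a1 a2, fun s t a1 a2 _ _ => h4 s t a1 a2,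
      fun s a1 _ => h5 s a1, h6, h7⟩
  · intro L j k S hk hA _ h hn
    have hk1 : k ≤ W.sup id := by simpa using Finset.le_sup (f := id) hk
    have hk2 : tt k ≤ W.sup tt := Finset.le_sup (f := tt) hk
    obtain ⟨h1, h2, h3, h4, h5, h6, h7⟩ := h
    by_contra hcon
    apply hn
    rw [thP_iff]
    refine ⟨h1, h2, ?_, ?_, ?_, h6, h7⟩
    · intro s t a1 a2 a3
      by_cases b1 : j ≤ s + L
      · by_cases b2 : t ≤ j + L
        · exact h3 s t a1 a2 b1 b2 a3
        · exact hcon ⟨s, t, by omega, by omega, by omega, a3⟩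
      · exact hcon ⟨s, t, by omega, by omega, by omega, a3⟩
    · intro s t a1 a2 a3
      by_cases b1 : j ≤ s + L
      · by_cases b2 : t ≤ j + L
        · exact h4 s t a1 a2 b1 b2 a3
        · exact hcon ⟨s, t, by omega, by omega, by omega, a3⟩
      · exact hcon ⟨s, t, by omega, by omega, by omega, a3⟩
    · intro s a1 a3
      by_cases b1 : j ≤ s + L
      · exact h5 s a1 b1 a3
      · exact hcon ⟨s, j, by omega, by omega, by omega, a3⟩

/-- the level is at least `κ` times the sum -/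
theorem lvl_ge {d : ℕ} (W : Finset ℕ) (h : Fin d → ℝ) (κ : ℝ) (Th : ℕ → (ℕ → V d) → Prop)
    (j : ℕ) (S : ℕ → V d) :
    κ * ∑ k ∈ KKs W Th S, Real.exp (ip h (S j - S (j + k))) ≤ (lvl W h κ Th j S : ℝ) := by
  unfold lvl
  split_ifs with hne
  · push_cast
    exact (Nat.lt_floor_add_one _).le
  · rw [Finset.not_nonempty_iff_eq_empty] at hne
    rw [hne]; simp

theorem meas_ip {d : ℕ} {Ω : Type} [MeasurableSpace Ω] (X : ℕ → ℕ → Ω → V d)
    (hX : ∀ i n, Measurable (X i n)) (h : Fin d → ℝ) (j k : ℕ) :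
    Measurable (fun ω => Real.exp (ip h (X 0 j ω - X 0 (j + k) ω))) := by
  have h1 : Measurable (fun v : V d × V d => Real.exp (ip h (v.1 - v.2))) :=
    measurable_from_prod_countable_right fun _ => Measurable.of_discrete
  exact h1.comp ((hX 0 j).prodMk (hX 0 (j + k)))

theorem main (hTYPE2 : S_TYPE2) (hHOR : S_HOR) (hQB2 : S_QB2) (hGAP : S_GAP) (hREG2 : S_REG2)
    (hLOCL : S_LOCL) : S_PROP2 := by
  classical
  intro d Ω _ μ _ p X hp hs hX i hi hpos hcrit hex η1 hη1 M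
  obtain ⟨n, u, g, gB, hg, hgB, hu, hn, hnu, hd1, hd2⟩ := hex
  obtain ⟨c, hc, c1, hc1, DD, hDD, C, hC, Mc, hMc, r0, t0, ht0⟩ := hTYPE2 d (p 0) (lhat (p i)) n u g gB
    (hp 0) (hs 0) hcrit hg hgB hu hn hnu hd1 hd2
  obtain ⟨pm, hpm, hpm'⟩ := exists_pm p hp i
  have hiR : (0 : ℝ) < i := by exact_mod_cast hi
  obtain ⟨r1, hr1⟩ := gap_all hGAP u (fun m => lhat (p (m + 1))) i C hu hi (fun m hm => by
    have h1 := hpos (m + 1) (by omega) (by omega)
    rw [sum_fn] at h1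
    simp only [hd1] at h1
    have h2 : ∑ j, lhat (p (m + 1)) j * (g * u j) = g * ∑ j, lhat (p (m + 1)) j * u j := by
      rw [Finset.mul_sum]
      exact Finset.sum_congr rfl fun j _ => by ring
    rw [h2] at h1
    exact (mul_pos_iff_of_pos_left hg).mp h1) hC pm (η1 / (2 * i)) hpm (by positivity)
  -- the radii
  obtain ⟨A, hA⟩ := exists_nat_gt (DD / c1)
  set rs : ℕ := max (max r0 r1) 1 with hrs
  set A' : ℕ := A + 1 with hA'
  set R : ℕ → ℕ := fun l => rs * A' ^ l with hR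
  have hDD0 : 0 < DD := hc1.trans hDD
  have hAc : DD < c1 * (A' : ℝ) ^ 20 := by
    have h1 : DD < c1 * A := by
      rw [div_lt_iff₀ hc1] at hA; linarith
    have h2 : (A : ℝ) ≤ (A' : ℝ) ^ 20 := by
      have h3 : (1 : ℝ) ≤ A' := by rw [hA']; push_cast; linarith [Nat.cast_nonneg (α := ℝ) A]
      calc (A : ℝ) ≤ A' := by rw [hA']; push_cast; linarith
        _ ≤ (A' : ℝ) ^ 20 := le_self_pow₀ h3 (by norm_num)
    nlinarith
  have hRge : ∀ l, rs ≤ R l := fun l => Nat.le_mul_of_pos_right _ (by positivity)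
  have hR1 : ∀ l, 1 ≤ R l := fun l => (le_max_right _ _).trans (hRge l)
  have hRr0 : ∀ l, r0 ≤ R l := fun l => ((le_max_left _ _).trans (le_max_left _ _)).trans (hRge l)
  have hRr1 : ∀ l, r1 ≤ R l := fun l => ((le_max_right _ _).trans (le_max_left _ _)).trans (hRge l)
  have hRmono : Monotone R := by
    intro a b hab
    exact Nat.mul_le_mul_left _ (Nat.pow_le_pow_right (by omega) hab)
  have hRstep : ∀ l, DD * (R l : ℝ) ^ 20 < c1 * (R (l + 1) : ℝ) ^ 20 := by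
    intro l
    have h1 : (R (l + 1) : ℝ) = R l * A' := by
      simp only [hR]; push_cast; ring
    have h2 : (0 : ℝ) < (R l : ℝ) ^ 20 := by
      have : (1 : ℝ) ≤ R l := by exact_mod_cast hR1 l
      positivity
    rw [h1, mul_pow]
    calc DD * (R l : ℝ) ^ 20 < (c1 * (A' : ℝ) ^ 20) * (R l : ℝ) ^ 20 := by
          exact mul_lt_mul_of_pos_right hAc h2
      _ = _ := by ring
  set win : ℕ → Finset ℕ := fun l => Finset.Icc ⌈c1 * (R l : ℝ) ^ 20⌉₊ ⌊DD * (R l : ℝ) ^ 20⌋₊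
    with hwin
  have hmemwin : ∀ l k, k ∈ win l → c1 * (R l : ℝ) ^ 20 ≤ k ∧ (k : ℝ) ≤ DD * (R l : ℝ) ^ 20 := by
    intro l k hk
    rw [hwin] at hk
    simp only [Finset.mem_Icc] at hk
    exact ⟨Nat.ceil_le.mp hk.1, (Nat.le_floor_iff (by positivity)).mp hk.2⟩
  have hdis : ∀ l l', l < l' → ∀ k, k ∈ win l → k ∉ win l' := by
    intro l l' hll k hk hk'
    have h1 := (hmemwin l k hk).2
    have h2 := (hmemwin l' k hk').1
    have h3 := hRstep l
    have h4 : (R (l + 1) : ℝ) ≤ R l' := by exact_mod_cast hRmono hll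
    have h5 : c1 * (R (l + 1) : ℝ) ^ 20 ≤ c1 * (R l' : ℝ) ^ 20 := by gcongr
    linarith
  have hidx : ∀ k : ℕ, ∃ l : ℕ, ∀ l', k ∈ win l' → l = l' := by
    intro k
    by_cases hk : ∃ l, k ∈ win l
    · obtain ⟨l, hl⟩ := hk
      refine ⟨l, fun l' hl' => ?_⟩
      rcases lt_trichotomy l l' with h | h | h
      · exact absurd hl' (hdis l l' h k hl)
      · exact h
      · exact absurd hl (hdis l' l h k hl')
    · exact ⟨0, fun l' hl' => absurd ⟨l', hl'⟩ hk⟩
  choose idx hidx' using hidx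
  set κ : ℝ := η1 / 2 * pm with hκ
  have hκ0 : 0 < κ := by rw [hκ]; positivity
  -- the number of windows
  obtain ⟨nw, hnw⟩ := exists_nat_gt (M / (κ * c))
  set W : Finset ℕ := (Finset.range nw).biUnion win with hW
  obtain ⟨j0, hj0⟩ : ∃ j0 : ℕ, ∀ l < nw, Mc * (R l : ℝ) ^ 20 ≤ j0 := by
    obtain ⟨j0, hj0⟩ := exists_nat_gt (Mc * (R nw : ℝ) ^ 20)
    refine ⟨j0, fun l hl => ?_⟩
    have h1 : (R l : ℝ) ≤ R nw := by exact_mod_cast hRmono hl.le
    have h2 : Mc * (R l : ℝ) ^ 20 ≤ Mc * (R nw : ℝ) ^ 20 := by gcongr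
    linarith
  have hWk : ∀ k ∈ W, ∃ l < nw, k ∈ win l ∧ idx k = l := by
    intro k hk
    rw [hW, Finset.mem_biUnion] at hk
    obtain ⟨l, hl, hkl⟩ := hk
    exact ⟨l, Finset.mem_range.mp hl, hkl, hidx' k l hkl⟩
  have hk1 : ∀ k ∈ W, 1 ≤ k := by
    intro k hk
    obtain ⟨l, hl, hkl, hid⟩ := hWk k hk
    have h1 := (hmemwin l k hkl).1
    have h2 : (0 : ℝ) < (R l : ℝ) ^ 20 := by
      have : (1 : ℝ) ≤ R l := by exact_mod_cast hR1 l
      positivity
    have h3 : (0 : ℝ) < k := lt_of_lt_of_le (by positivity) h1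
    exact_mod_cast h3
  set rr : ℕ → ℕ := fun k => R (idx k) with hrr
  set tt : ℕ → ℕ := fun k => t0 (R (idx k)) k with htt
  have hmeasTh : ∀ j k, MeasurableSet[sig0 X] {ω | ThP u rr tt j k (fun n => X 0 n ω)} :=
    fun j k => meas_Th X u (rr k) j k (tt k)
  have hLoc : Loc W (fun j k => ThP (d := d) u rr tt j k) := loc u rr tt W
  obtain ⟨KK, hKK1, hKK2, -⟩ := hLOCL d Ω μ p X hp hs hX (lhat (p i)) (lhat (p i)) W
    (fun j k => ThP u rr tt j k) κ (hpos i hi le_rfl) hκ0 (fun j k _ => hmeasTh j k) hLoc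
  refine ⟨κ, W, fun j k => ThP u rr tt j k, j0, hκ0, hk1, fun j k _ => hmeasTh j k, ?_, hLoc, ?_, ?_⟩
  · intro j k _ S hS
    rw [thP_iff] at hS
    exact ⟨hS.2.2.2.1, hS.2.2.2.2.1⟩
  · -- few visits
    intro j _ N hN K' s E l hK'W hK'ne hE hEω hl hl2
    rcases Set.eq_empty_or_nonempty E with hemp | ⟨ω0, hω0⟩
    · rw [hemp]; simp
    obtain ⟨k1, hk1K⟩ := hK'ne
    obtain ⟨lw, hlw, hkl, hid⟩ := hWk k1 (hK'W hk1K)
    set r : ℕ := R lw with hr
    have hth : ∀ ω ∈ E, ∀ k ∈ K', ThP u rr tt j k (fun n => X 0 n ω) := fun ω hω k hk =>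
      ((hEω ω hω).2 k (hK'W hk)).mp hk
    have hrr1 : rr k1 = r := by rw [hrr]; simp only [hid]; rfl
    have htt1 : tt k1 = t0 r k1 := by rw [htt]; simp only [hid]; rfl
    have hQ : ∀ ω ∈ E, ∀ T, j + k1 ≤ T →
        Q2 u r j k1 (t0 r k1) T (fun n => X 0 n ω) := by
      intro ω hω T hT
      have := hth ω hω k1 hk1K T hT
      rwa [hrr1, htt1] at this
    have hQ0 := hQ ω0 hω0 (j + k1) le_rfl
    have hs0 := (hEω ω0 hω0).1
    have hN1 := hN k1 (hK'W hk1K)
    obtain ⟨q1, q2, q3, q4, q5, q6, q7⟩ := hQ0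
    simp only at q3 q4 q5 q6 q7
    have q6' : ∀ t, j - t0 r k1 ≤ t → t ≤ j → (r : ℝ) ^ 15 ≤ ip u (s t - s (j + k1)) := by
      intro t h1 h2
      rw [← hs0 t (by omega), ← hs0 (j + k1) (by omega)]
      exact q6 t h1 h2
    have q7' : ∀ t, j - t0 r k1 ≤ t → t ≤ j + k1 → ∀ i,
        |ip (perp u i) (s t - s (j + k1))| ≤ 2 * (r : ℝ) ^ 12 := by
      intro t h1 h2
      rw [← hs0 t (by omega), ← hs0 (j + k1) (by omega)]
      exact q7 t h1 h2
    obtain ⟨Γ, hΓ1, hΓ2⟩ := hr1 r (hRr1 lw)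
    have hr15 : (0 : ℝ) < (r : ℝ) ^ 15 := by
      have : (1 : ℝ) ≤ r := by exact_mod_cast hR1 lw
      positivity
    have hθstep : ∀ m : ℕ, (r : ℝ) ^ 15 * (1 - (m : ℝ) / (2 * i)) -
        (r : ℝ) ^ 15 * (1 - ((m + 1 : ℕ) : ℝ) / (2 * i)) = (r : ℝ) ^ 15 / (2 * i) := by
      intro m
      push_cast
      field_simp
      ring
    have hη : i * (η1 / (2 * i)) + η1 / 2 = η1 := by field_simp; ring
    rw [← hη]
    refine hQB2 d Ω μ p X hp hs hX i hi s (j - t0 r k1) j k1 N u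
      (fun m => (r : ℝ) ^ 15 * (1 - (m : ℝ) / (2 * i))) Γ (η1 / (2 * i)) pm (η1 / 2) K' E l
      (by omega) hpm (by positivity)
      hpm' hE hk1K (fun k hk => ⟨hk1 k (hK'W hk), hN k (hK'W hk)⟩) ?_ ?_ ?_ ?_
      ?_ ?_ hl hl2
    · intro ω hω
      refine ⟨(hEω ω hω).1, isCut_of (T0 := j + k1) fun T hT => (hQ ω hω T hT).2.2.1, ?_⟩
      intro k hk
      exact isCut_of (T0 := j + k) fun T hT => (hth ω hω k hk T hT).2.2.2.1
    · intro t h1 h2
      simp only [Nat.cast_zero, zero_div, sub_zero, mul_one]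
      exact q6' t h1 h2
    · intro m hm
      have h1 : (m : ℝ) ≤ i := by exact_mod_cast hm
      have h2 : (m : ℝ) / (2 * i) ≤ 1 / 2 := by
        rw [div_le_div_iff₀ (by positivity) (by norm_num)]; linarith
      have : (0 : ℝ) < 1 - (m : ℝ) / (2 * i) := by linarith
      positivity
    · intro m hm
      have h1 := hθstep m
      have h2 : (0 : ℝ) ≤ (r : ℝ) ^ 15 / (2 * i) := by positivity
      linarith
    · intro m hm t t' h1 h2 h3 h4 h5 h6
      have h7 := hΓ1 m hm (s t - s (j + k1)) (s t' - s (j + k1)) _ _ (hθstep m).ge h5 h6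
        (q7' t h1 h2) (q7' t' h3 h4)
      rw [ip_sub, ip_sub] at h7
      linarith
    · refine hΓ2 (j - t0 r k1) (j + k1) (by omega) ?_
      have h1 := (ht0 r (hRr0 lw)).1 k1 (hmemwin lw k1 hkl).1 (hmemwin lw k1 hkl).2
      have h2 : ((j - t0 r k1 : ℕ) : ℝ) = (j : ℝ) - t0 r k1 := by
        rw [Nat.cast_sub q2]
      rw [h2]
      push_cast
      linarith
  · -- the lower bound
    intro j hj
    set Θ : ℕ → Set Ω := fun k => {ω | ThP u rr tt j k (fun n => X 0 n ω)} with hΘ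
    have hsig : sig0 X ≤ (inferInstance : MeasurableSpace Ω) := by
      unfold sig0
      exact iSup_le fun s => (hX.meas 0 s).comap_le
    have hΘm : ∀ k, MeasurableSet (Θ k) := fun k => hsig _ (hmeasTh j k)
    have h1 : ∀ l < nw, c ≤ ∑ k ∈ win l, ∫ ω in Θ k,
        Real.exp (ip (lhat (p i)) (X 0 j ω - X 0 (j + k) ω)) ∂μ := by
      intro l hl
      have h2 : ∀ k ∈ win l, Tendsto (fun T => Ex (p 0) T (fun L =>
          ind (Q2 u (R l) j k (t0 (R l) k) T (pos L)) *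
            Real.exp (ip (lhat (p i)) (pos L j - pos L (j + k))))) atTop
          (𝓝 (∫ ω in Θ k, Real.exp (ip (lhat (p i)) (X 0 j ω - X 0 (j + k) ω)) ∂μ)) := by
        intro k hk
        have hid : idx k = l := hidx' k l hk
        have h3 := hHOR d Ω μ p X hp hs hX (fun T S => Q2 u (R l) j k (t0 (R l) k) T S) (j + k)
          (fun S => Real.exp (ip (lhat (p i)) (S j - S (j + k))))
          (fun T S => Q2_succ _ _ _ _ _ _ _)
          (fun T hT S S' h => Q2_congr _ _ _ _ _ _ hT _ _ h)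
          (fun S S' h => by rw [h j (by omega), h (j + k) le_rfl])
          (fun S => (Real.exp_pos _).le)
        rw [hΘ, hrr, htt]
        unfold ThP
        simp only [hid]
        exact h3
      have h4 : Tendsto (fun T => ∑ k ∈ win l, Ex (p 0) T (fun L =>
          ind (Q2 u (R l) j k (t0 (R l) k) T (pos L)) *
            Real.exp (ip (lhat (p i)) (pos L j - pos L (j + k))))) atTop
          (𝓝 (∑ k ∈ win l, ∫ ω in Θ k,
            Real.exp (ip (lhat (p i)) (X 0 j ω - X 0 (j + k) ω)) ∂μ)) :=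
        tendsto_finsetSum _ h2
      refine ge_of_tendsto h4 ?_
      obtain ⟨T1, hT1⟩ := exists_nat_gt ((j : ℝ) + Mc * (R l : ℝ) ^ 20)
      filter_upwards [eventually_ge_atTop T1] with T hT
      refine (ht0 (R l) (hRr0 l)).2 j T ?_ ?_
      · exact (hj0 l hl).trans (by exact_mod_cast hj)
      · have : (T1 : ℝ) ≤ T := by exact_mod_cast hT
        linarith
    have h5 : ∑ k ∈ W, ∫ ω in Θ k, Real.exp (ip (lhat (p i)) (X 0 j ω - X 0 (j + k) ω)) ∂μ =
        ∑ l ∈ Finset.range nw, ∑ k ∈ win l, ∫ ω in Θ k,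
          Real.exp (ip (lhat (p i)) (X 0 j ω - X 0 (j + k) ω)) ∂μ := by
      rw [hW]
      refine Finset.sum_biUnion ?_
      intro l _ l' _ hll
      rw [Function.onFun, Finset.disjoint_left]
      intro k hk hk'
      rcases lt_or_gt_of_ne hll with h | h
      · exact hdis l l' h k hk hk'
      · exact hdis l' l h k hk' hk
    have h6 : (nw : ℝ) * c ≤ ∑ k ∈ W, ∫ ω in Θ k,
          Real.exp (ip (lhat (p i)) (X 0 j ω - X 0 (j + k) ω)) ∂μ := by
      rw [h5]
      calc (nw : ℝ) * c = ∑ _l ∈ Finset.range nw, c := by simp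
        _ ≤ _ := Finset.sum_le_sum fun l hl => h1 l (Finset.mem_range.mp hl)
    have h7 : M < nw * (κ * c) := by
      rwa [div_lt_iff₀ (by positivity)] at hnw
    -- the level
    set lv : Ω → ℝ := fun ω => (lvl W (lhat (p i)) κ (fun k => ThP u rr tt j k) j
      (fun n => X 0 n ω) : ℝ) with hlv
    have hpath : ∀ᵐ ω ∂μ, PathHyp (fun n => X 0 n ω) := by
      filter_upwards [hREG2 d Ω μ p X hp hs hX] with ω hω using hω.1 0
    have hint : Integrable lv μ := by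
      refine Integrable.mono' (integrable_const KK) (hKK2 j) ?_
      filter_upwards [hpath] with ω hω
      have := hKK1 j _ hω
      rw [Real.norm_eq_abs, abs_of_nonneg this.1]
      exact this.2
    set fk : ℕ → Ω → ℝ := fun k => (Θ k).indicator
      (fun ω => Real.exp (ip (lhat (p i)) (X 0 j ω - X 0 (j + k) ω))) with hfk
    have hsumle : ∀ ω, κ * ∑ k ∈ W, fk k ω ≤ lv ω := by
      intro ω
      refine le_trans (le_of_eq ?_) (lvl_ge W (lhat (p i)) κ (fun k => ThP u rr tt j k) j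
        (fun n => X 0 n ω))
      congr 1
      unfold KKs
      rw [Finset.sum_filter]
      refine Finset.sum_congr rfl fun k _ => ?_
      rw [hfk]
      simp only [Set.indicator_apply]
      rfl
    have hfk0 : ∀ k ω, 0 ≤ fk k ω := fun k ω =>
      Set.indicator_nonneg (fun _ _ => (Real.exp_pos _).le) ω
    have hfkm : ∀ k, Measurable (fk k) := fun k =>
      (meas_ip X hX.meas (lhat (p i)) j k).indicator (hΘm k)
    have hfkint : ∀ k ∈ W, Integrable (fk k) μ := by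
      intro k hk
      refine Integrable.mono' (hint.const_mul (1 / κ)) (hfkm k).aestronglyMeasurable ?_
      refine Eventually.of_forall fun ω => ?_
      rw [Real.norm_eq_abs, abs_of_nonneg (hfk0 k ω)]
      have h8 : κ * fk k ω ≤ lv ω :=
        le_trans (mul_le_mul_of_nonneg_left
          (Finset.single_le_sum (fun k _ => hfk0 k ω) hk) hκ0.le) (hsumle ω)
      rw [one_div, ← div_eq_inv_mul, le_div_iff₀ hκ0]
      linarith
    have h9 : κ * ∑ k ∈ W, ∫ ω in Θ k,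
        Real.exp (ip (lhat (p i)) (X 0 j ω - X 0 (j + k) ω)) ∂μ = ∫ ω, κ * ∑ k ∈ W, fk k ω ∂μ := by
      rw [integral_const_mul, integral_finsetSum _ hfkint]
      congr 1
      refine Finset.sum_congr rfl fun k _ => ?_
      rw [hfk]
      exact (integral_indicator (hΘm k)).symm
    have h10 : ∫ ω, κ * ∑ k ∈ W, fk k ω ∂μ ≤ ∫ ω, lv ω ∂μ :=
      integral_mono ((integrable_finsetSum _ hfkint).const_mul κ) hint hsumle
    calc M ≤ κ * (nw * c) := by nlinarith
      _ ≤ κ * ∑ k ∈ W, ∫ ω in Θ k,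
          Real.exp (ip (lhat (p i)) (X 0 j ω - X 0 (j + k) ω)) ∂μ := by gcongr
      _ = _ := h9
      _ ≤ _ := h10

end Pool.Agent.Helper6.BW.PROP2
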